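import Pool.Agent.H5.EG.Spec2

/-!
# MP_98cfca_co, Q1: final assembly
-/

set_option autoImplicit false

namespace Pool.Agent.H549.EG

open Pool.Agent.H5.EG

/-! ### Relabelling -/

theorem even_of_iso {V V' : Type} {G : SimpleGraph V} {G' : SimpleGraph V'} (f : G ≃g G') (x : V)
    [Fintype (G.neighborSet x)] [Fintype (G'.neighborSet (f x))]
    (h : Even (G'.degree (f x))) : Even (G.degree x) := by
  rwa [f.degree_eq] at h

/-- `W` is invariant under relabelling of the vertices. -/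
theorem W_perm {V V' : Type} [Fintype V] [Fintype V'] (e : V ≃ V') (α : Equiv.Perm V) :
    W (e.permCongr α) = W α := by
  classical
  unfold W
  symm
  refine Finset.sum_nbij' (fun G => SimpleGraph.comap e.symm G) (fun G => SimpleGraph.comap e G)
    ?_ ?_ ?_ ?_ ?_
  · intro G hG
    simp only [Finset.mem_filter, Finset.mem_univ, true_and] at hG ⊢
    refine ⟨fun v => ?_, fun u v => ?_⟩
    · exact @even_of_iso _ _ _ _ (SimpleGraph.Iso.comap e.symm G) v _ _ (hG.1 (e.symm v))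
    · simp only [SimpleGraph.comap_adj, Equiv.permCongr_apply, Equiv.symm_apply_apply]
      exact hG.2 _ _
  · intro G hG
    simp only [Finset.mem_filter, Finset.mem_univ, true_and] at hG ⊢
    refine ⟨fun v => ?_, fun u v => ?_⟩
    · exact @even_of_iso _ _ _ _ (SimpleGraph.Iso.comap e G) v _ _ (hG.1 (e v))
    · have h := hG.2 (e u) (e v)
      simp only [Equiv.permCongr_apply, Equiv.symm_apply_apply] at h
      simpa only [SimpleGraph.comap_adj] using h
  · intro G _
    ext u v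
    simp
  · intro G _
    ext u v
    simp
  · intro G _
    exact congrArg (fun n : ℕ => (Polynomial.X : Polynomial ℤ) ^ n)
      (@SimpleGraph.Iso.card_edgeFinset_eq _ _ _ _ (SimpleGraph.Iso.comap e.symm G) _ _).symm

/-! ### The power series of the members of `Fn` converge in the unit disc -/

theorem fn_eq (F : Fn) (n : ℕ) : (n : ℤ) * PowerSeries.coeff n F.f =
    -∑ k ∈ Finset.range n, F.s (n - k) * PowerSeries.coeff k F.f := by
  have h := congrArg (PowerSeries.coeff n) F.eq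
  rw [coeff_D, PowerSeries.coeff_mul, ← Finset.Nat.sum_antidiagonal_swap,
    Finset.Nat.sum_antidiagonal_eq_sum_range_succ_mk] at h
  rw [h, Finset.sum_range_succ]
  simp [gg, F.s0, Finset.sum_neg_distrib]

theorem fn_bound (F : Fn) : ∃ h : ℕ, ∀ n : ℕ,
    |((PowerSeries.coeff n F.f : ℤ) : ℝ)| ≤ ((n + h).choose h : ℝ) := by
  obtain ⟨H, hH⟩ := F.bd
  obtain ⟨h, hh⟩ := exists_nat_ge H
  have hs : ∀ n, |(F.s n : ℝ)| ≤ (h + 1 : ℕ) := fun n => by
    have := hH n
    push_cast
    linarith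
  refine ⟨h, fun n => ?_⟩
  induction n using Nat.strong_induction_on with
  | _ n ih =>
    rcases Nat.eq_zero_or_pos n with rfl | hn
    · have := F.f0
      rw [← PowerSeries.coeff_zero_eq_constantCoeff_apply] at this
      rw [this]
      simp
    · have h1 := congrArg (fun z : ℤ => |(z : ℝ)|) (fn_eq F n)
      simp only [Int.cast_mul, Int.cast_natCast, abs_mul, Nat.abs_cast, Int.cast_neg, abs_neg,
        Int.cast_sum] at h1
      have h2 : |∑ k ∈ Finset.range n, (F.s (n - k) : ℝ) * ((PowerSeries.coeff k F.f : ℤ) : ℝ)| ≤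
          ∑ k ∈ Finset.range n, ((h + 1 : ℕ) : ℝ) * ((k + h).choose h : ℝ) := by
        refine (Finset.abs_sum_le_sum_abs _ _).trans (Finset.sum_le_sum fun k hk => ?_)
        rw [abs_mul]
        exact mul_le_mul (hs _) (ih k (Finset.mem_range.1 hk)) (abs_nonneg _) (by positivity)
      have h3 : ∑ k ∈ Finset.range n, ((h + 1 : ℕ) : ℝ) * ((k + h).choose h : ℝ) =
          (n : ℝ) * ((n + h).choose h : ℝ) := by
        obtain ⟨j, rfl⟩ : ∃ j, n = j + 1 := ⟨n - 1, by omega⟩
        rw [← Finset.mul_sum]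
        have h4 := Nat.sum_range_add_choose j h
        have h5 := Nat.choose_mul_succ_eq (j + h) h
        have h6 := Nat.choose_succ_right_eq (j + 1 + h) h
        have h7 : j + h + 1 = j + 1 + h := by ring
        rw [h7] at h4
        have h8 : (h + 1) * (∑ i ∈ Finset.range (j + 1), (i + h).choose h) =
            (j + 1) * (j + 1 + h).choose h := by
          rw [h4, mul_comm, h6]
          rw [Nat.add_sub_cancel]
          ring
        exact_mod_cast h8
      rw [h3, ← h1] at h2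
      exact le_of_mul_le_mul_left h2 (by exact_mod_cast hn)

theorem fn_rad (F : Fn) : Rad (toC F.f) := by
  obtain ⟨h, hh⟩ := fn_bound F
  intro ρ h0 h1
  have h2 := summable_choose_mul_geometric_of_norm_lt_one (R := ℝ) h (r := ρ)
    (by rwa [Real.norm_of_nonneg h0])
  refine Summable.of_nonneg_of_le (fun n => by positivity) (fun n => ?_) h2
  rw [coeff_toC, Complex.norm_intCast]
  exact mul_le_mul_of_nonneg_right (hh n) (by positivity)

/-! ### Polynomials -/

theorem poly_coeff_zero (p : Polynomial ℤ) {n : ℕ} (hn : n ∉ Finset.range (p.natDegree + 1)) :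
    PowerSeries.coeff n (toC (p : PowerSeries ℤ)) = 0 := by
  rw [coeff_toC, Polynomial.coeff_coe, Polynomial.coeff_eq_zero_of_natDegree_lt]
  · simp
  · rw [Finset.mem_range] at hn
    omega

theorem poly_rad (p : Polynomial ℤ) : Rad (toC (p : PowerSeries ℤ)) := by
  intro ρ _ _
  refine summable_of_ne_finset_zero (s := Finset.range (p.natDegree + 1)) fun n hn => ?_
  rw [poly_coeff_zero p hn]
  simp

theorem poly_ev (p : Polynomial ℤ) (x : ℂ) :
    ev (toC (p : PowerSeries ℤ)) x = Polynomial.aeval x p := by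
  rw [ev, tsum_eq_sum (s := Finset.range (p.natDegree + 1)), Polynomial.aeval_eq_sum_range]
  · refine Finset.sum_congr rfl fun n _ => ?_
    rw [coeff_toC, Polynomial.coeff_coe]
    simp
  · intro n hn
    rw [poly_coeff_zero p hn]
    simp

/-! ### The identity theorem -/

theorem rad_sum {ι : Type} (s : Finset ι) (g : ι → PowerSeries ℂ) (hg : ∀ i, Rad (g i)) :
    Rad (∑ i ∈ s, g i) := by
  classical
  induction s using Finset.induction_on with
  | empty =>
    have := (Rad.one).C_mul 0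
    simpa using this
  | insert i s hi ih =>
    rw [Finset.sum_insert hi]
    exact (hg i).add ih

theorem ev_sum {ι : Type} (s : Finset ι) (g : ι → PowerSeries ℂ) (hg : ∀ i, Rad (g i)) {x : ℂ}
    (hx : ‖x‖ < 1) : ev (∑ i ∈ s, g i) x = ∑ i ∈ s, ev (g i) x := by
  classical
  induction s using Finset.induction_on with
  | empty => simp [ev]
  | insert i s hi ih =>
    rw [Finset.sum_insert hi, Finset.sum_insert hi, ev_add (hg i) (rad_sum s g hg) hx, ih]

theorem ev_identity {h : PowerSeries ℂ} (hh : Rad h)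
    (h0 : ∀ x : ℝ, 0 < x → x < 1 → ev h (x : ℂ) = 0) : h = 0 := by
  have hb := hasFPowerSeries hh
  have han : AnalyticAt ℂ (ev h) 0 := hb.analyticAt
  have hfr : ∃ᶠ z in nhdsWithin (0 : ℂ) {0}ᶜ, ev h z = 0 := by
    have ht : Filter.Tendsto (fun n : ℕ => ((1 / ((n : ℝ) + 2) : ℝ) : ℂ)) Filter.atTop
        (nhdsWithin (0 : ℂ) {0}ᶜ) := by
      rw [tendsto_nhdsWithin_iff]
      refine ⟨?_, Filter.Eventually.of_forall fun n => ?_⟩
      · have h1 : Filter.Tendsto (fun n : ℕ => (1 / ((n : ℝ) + 2) : ℝ)) Filter.atTop (nhds 0) := by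
          have h2 := (tendsto_one_div_add_atTop_nhds_zero_nat (𝕜 := ℝ)).comp
            (Filter.tendsto_add_atTop_nat 1)
          refine h2.congr fun n => ?_
          simp only [Function.comp_apply]
          push_cast
          ring
        have h3 := (Complex.continuous_ofReal.tendsto 0).comp h1
        simpa [Function.comp_def] using h3
      · have : (1 / ((n : ℝ) + 2) : ℝ) ≠ 0 := by positivity
        simpa using Complex.ofReal_ne_zero.2 this
    refine ht.frequently (Filter.Frequently.of_forall fun n => ?_)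
    refine h0 _ (by positivity) ?_
    rw [div_lt_one (by positivity)]
    have : (0 : ℝ) ≤ n := Nat.cast_nonneg n
    linarith
  have hev := (han.frequently_zero_iff_eventually_zero).1 hfr
  have hz := HasFPowerSeriesAt.eq_zero_of_eventually hb.hasFPowerSeriesAt hev
  have hz2 := (FormalMultilinearSeries.ofScalars_series_eq_zero (𝕜 := ℂ) (E := ℂ)
    (c := fun n => PowerSeries.coeff n h)).1 hz
  ext n
  have := congrFun hz2 n
  simpa using this

/-! ### The power series `W₁` -/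

theorem pairs_le (m k : ℕ) (hk : k ≤ m) : k * (m - k) ≤ m.choose 2 := by
  obtain ⟨j, rfl⟩ := Nat.exists_eq_add_of_le hk
  rw [Nat.add_sub_cancel_left, Nat.choose_two_right, Nat.le_div_iff_mul_le two_pos]
  rcases Nat.eq_zero_or_pos (k + j) with h0 | h0
  · have h1 : k = 0 := by omega
    subst h1
    simp
  · obtain ⟨i, hi⟩ : ∃ i, k + j = i + 1 := ⟨k + j - 1, by omega⟩
    have h1 : k ≤ k * k := Nat.le_mul_self k
    have h2 : j ≤ j * j := Nat.le_mul_self j
    have h3 : (k + j) * (k + j - 1) + (k + j) = (k + j) * (k + j) := by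
      rw [hi, Nat.add_sub_cancel]
      ring
    nlinarith

theorem exists_isW (m r : ℕ) (hr : 1 ≤ r) (h : S_graphB) :
    ∃ V W₁ : PowerSeries ℤ, IsW m r V W₁ ∧
      W₁ * (1 + PowerSeries.X ^ r) ^ (r * m.choose 2) =
        ((∑ S ∈ evenSets m r, (Polynomial.X ^ r) ^ S.card : Polynomial ℤ) : PowerSeries ℤ) := by
  set u : PowerSeries ℤ := 1 + PowerSeries.X ^ r with hu
  have hc : PowerSeries.constantCoeff u = ((1 : ℤˣ) : ℤ) := by
    rw [hu, map_add, map_pow]
    simp [zero_pow (show r ≠ 0 by omega)]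
  obtain ⟨ui, hui⟩ : ∃ ui : PowerSeries ℤ, u * ui = 1 :=
    ⟨_, PowerSeries.mul_invOfUnit u 1 hc⟩
  set S : PowerSeries ℤ :=
    ((∑ S ∈ evenSets m r, (Polynomial.X ^ r) ^ S.card : Polynomial ℤ) : PowerSeries ℤ) with hS
  have hB : (2 : PowerSeries ℤ) ^ m * S = ∑ k ∈ Finset.range (m + 1),
      (m.choose k : PowerSeries ℤ) * (u ^ (r * (m.choose 2 - k * (m - k))) *
        (1 - PowerSeries.X ^ r) ^ (r * (k * (m - k)))) := by
    have h1 := congrArg (Polynomial.coeToPowerSeries.ringHom (R := ℤ)) (h m r (Polynomial.X ^ r))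
    simp only [map_mul, map_sum, map_pow, map_add, map_sub, map_one, map_natCast, map_ofNat,
      Polynomial.coeToPowerSeries.ringHom_apply, Polynomial.coe_X] at h1
    rw [hS, hu]
    rw [← h1]
    congr 1
    have h2 := map_sum (Polynomial.coeToPowerSeries.ringHom (R := ℤ))
      (fun S : Finset ((Fin m × Fin m) × Fin r) => ((Polynomial.X : Polynomial ℤ) ^ r) ^ S.card)
      (evenSets m r)
    simp only [map_pow, Polynomial.coeToPowerSeries.ringHom_apply, Polynomial.coe_X] at h2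
    exact h2
  refine ⟨(1 - PowerSeries.X ^ r) * ui, S * ui ^ (r * m.choose 2), ⟨?_, ?_⟩, ?_⟩
  · rw [← hu, mul_assoc, mul_comm ui u, hui, mul_one]
  · rw [← mul_assoc, hB, Finset.sum_mul]
    refine Finset.sum_congr rfl fun k hk => ?_
    have h1 := pairs_le m k (by simpa [Nat.lt_succ_iff] using hk)
    have h2 : ui ^ (r * m.choose 2) =
        ui ^ (r * (m.choose 2 - k * (m - k))) * ui ^ (r * (k * (m - k))) := by
      rw [← pow_add, ← mul_add, Nat.sub_add_cancel h1]
    rw [h2, mul_pow]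
    have h3 : u ^ (r * (m.choose 2 - k * (m - k))) * ui ^ (r * (m.choose 2 - k * (m - k))) = 1 := by
      rw [← mul_pow, hui, one_pow]
    linear_combination (m.choose k : PowerSeries ℤ) *
      (1 - PowerSeries.X ^ r) ^ (r * (k * (m - k))) * ui ^ (r * (k * (m - k))) * h3
  · rw [mul_assoc, ← mul_pow, mul_comm ui u, hui, one_pow, mul_one]

theorem growth_mono {W : PowerSeries ℤ} {a b : ℕ} (h : Growth W a) (hab : a ≤ b) : Growth W b :=
  ⟨h.1, fun S hS x hx => (h.2 S hS x hx).trans (pow_le_pow_right₀ (by linarith) hab)⟩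

theorem coef_rep {B : ℕ} {W₁ : PowerSeries ℤ} (hR : Rad (toC W₁)) (P : Polynomial ℤ) (r M : ℕ)
    (hP : W₁ * ((((1 : Polynomial ℤ) + Polynomial.X ^ r) ^ M : Polynomial ℤ) : PowerSeries ℤ) =
      (P : PowerSeries ℤ)) (c : Fin B → ℝ) (p : Fin B → ℝ → ℝ) (F : Fin B → Fn)
    (hrep : ∀ x : ℝ, 0 < x → x < 1 → Polynomial.aeval x P = ∑ t, c t * p t x)
    (hF : ∀ t, ∀ x : ℝ, 0 < x → x < 1 → ev (toC (F t).f) (x : ℂ) =
      ((p t x * (1 + x ^ r) ^ (-(M : ℤ)) : ℝ) : ℂ)) (k : ℕ) :
    cf W₁ k = ∑ t, (c t : ℂ) * cf (F t).f k := by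
  have h1 : toC W₁ + PowerSeries.C (-1 : ℂ) * ∑ t, PowerSeries.C (c t : ℂ) * toC (F t).f = 0 := by
    have hr1 : ∀ t : Fin B, Rad (PowerSeries.C (c t : ℂ) * toC (F t).f) := fun t =>
      (fn_rad (F t)).C_mul _
    refine ev_identity (hR.add ((rad_sum _ _ hr1).C_mul _)) fun x h0 h1 => ?_
    have hx : ‖(x : ℂ)‖ < 1 := by
      rw [Complex.norm_real, Real.norm_of_nonneg h0.le]
      exact h1
    rw [ev_add hR ((rad_sum _ _ hr1).C_mul _) hx, ev_C_mul, ev_sum _ _ hr1 hx]
    have h2 := congrArg (fun h => ev (toC h) (x : ℂ)) hP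
    simp only [toC_mul] at h2
    rw [ev_mul hR (poly_rad _) hx, poly_ev, poly_ev] at h2
    have h3 : (Polynomial.aeval (x : ℂ)) P = ((Polynomial.aeval x P : ℝ) : ℂ) := by
      have := Polynomial.aeval_algebraMap_apply ℂ x P
      simpa using this
    rw [h3, hrep x h0 h1] at h2
    have hne : (1 + x ^ r : ℝ) ≠ 0 := by positivity
    have h4 : ev (toC W₁) (x : ℂ) = ((∑ t, c t * (p t x * (1 + x ^ r) ^ (-(M : ℤ))) : ℝ) : ℂ) := by
      have h5 : (∑ t, c t * (p t x * (1 + x ^ r) ^ (-(M : ℤ)))) =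
          (∑ t, c t * p t x) * ((1 + x ^ r) ^ M)⁻¹ := by
        rw [Finset.sum_mul]
        refine Finset.sum_congr rfl fun t _ => ?_
        rw [zpow_neg, zpow_natCast]
        ring
      have hne2 : (1 + (x : ℂ) ^ r) ≠ 0 := by exact_mod_cast hne
      rw [h5, Complex.ofReal_mul, ← h2]
      push_cast
      simp only [map_pow, map_add, map_one, Polynomial.aeval_X]
      field_simp
    rw [h4]
    have h6 : ∀ t : Fin B, ev (PowerSeries.C (c t : ℂ) * toC (F t).f) (x : ℂ) =
        ((c t * (p t x * (1 + x ^ r) ^ (-(M : ℤ))) : ℝ) : ℂ) := fun t => by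
      rw [ev_C_mul, hF t x h0 h1, ← Complex.ofReal_mul]
    rw [Finset.sum_congr rfl fun t _ => h6 t, ← Complex.ofReal_sum]
    ring
  have h2 := congrArg (PowerSeries.coeff k) h1
  simp only [map_add, map_sum, PowerSeries.coeff_C_mul, map_zero, coeff_toC] at h2
  simp only [cf]
  linear_combination h2

theorem main_ (h1 : S_A) (h2 : S_op) (h3 : S_final) (h4 : S_grow) (h5 : S_prod) (h6 : S_graphA)
    (h7 : S_graphB) : S_main := by
  intro B
  obtain ⟨C₁, hC₁⟩ := h4 (2 * B + 2)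
  obtain ⟨C₂, hC₂⟩ := h2 B
  obtain ⟨Λ₀, hΛ₀⟩ := h1 B
  obtain ⟨r₀, hr₀⟩ := h3 B (2 * B + 2) (2 * (4 * 6 ^ B) * C₂) le_rfl
  obtain ⟨m, hm⟩ : ∃ m, m = 2 * B + 2 := ⟨_, rfl⟩
  rw [← hm] at hC₁ hr₀
  obtain ⟨r, hr⟩ : ∃ r, r = 2 * (r₀ + C₁ + Λ₀ + B + 1) + 1 := ⟨_, rfl⟩
  have hodd : Odd r := ⟨_, hr⟩
  have : NeZero r := ⟨by omega⟩
  refine ⟨_, (Fintype.equivFin (Fin m × ZMod r)).permCongr (rot m r), ?_⟩
  rintro ⟨c, K, a, b, hK, hrep⟩
  rw [W_perm] at hrep
  obtain ⟨V, W₁, hIsW, hW₁⟩ := exists_isW m r (by omega) h7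
  obtain ⟨M, hM⟩ : ∃ M, M = m * ((r - 1) / 2) + r * m.choose 2 := ⟨_, rfl⟩
  have hW₂ : W₁ * ((((1 : Polynomial ℤ) + Polynomial.X ^ r) ^ M : Polynomial ℤ) : PowerSeries ℤ) =
      ((W (rot m r) : Polynomial ℤ) : PowerSeries ℤ) := by
    rw [h6 m r hodd, Polynomial.coe_mul, ← hW₁, hM, pow_add, Polynomial.coe_mul,
      Polynomial.coe_pow, Polynomial.coe_pow, Polynomial.coe_add, Polynomial.coe_one,
      Polynomial.coe_pow, Polynomial.coe_X]
    ring
  obtain ⟨hcc, hG⟩ := hC₁ r V W₁ (by omega) hIsW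
  have hG' : Growth W₁ ((C₁ + 1) * r) := growth_mono hG (Nat.mul_le_mul_right _ (by omega))
  choose F hF using fun t => h5 (K t) (a t) (b t) (-(M : ℤ)) r (hK t) (by omega)
  have hcoef := coef_rep hG.1 (W (rot m r)) r M hW₂ c
    (fun t x => ∏ k ∈ K t, (1 + x ^ k) ^ (a t k) * (1 - x ^ k) ^ (b t k)) F hrep hF
  have hΛr : r ≤ (C₁ + 1) * r := Nat.le_mul_of_pos_left _ (by omega)
  obtain ⟨T, X, hX1, hX2, hI, hR, hs⟩ := hΛ₀ ((C₁ + 1) * r) (by omega) F W₁ hcc hG'
    ⟨fun t => c t, hcoef⟩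
  have hrX : r ^ 4 ≤ X := (Nat.pow_le_pow_left hΛr 4).trans hX1
  have hr2 : r ^ 2 ≤ X := (Nat.pow_le_pow_right (by omega) (by norm_num)).trans hrX
  have hr1 : r ≤ X := (Nat.le_self_pow (by norm_num) r).trans hrX
  have hXB : B + 1 ≤ X := by omega
  have hXle : X ≤ r ^ (2 * (4 * 6 ^ B)) := by
    rw [pow_mul]
    refine hX2.trans (Nat.pow_le_pow_left ?_ _)
    rw [sq]
    exact Nat.mul_le_mul_right _ (by omega)
  obtain ⟨A, m₀, hm₀, hA1, hA2, hA3, hA4⟩ := hC₂ F W₁ T X (by omega) hI hR hs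
  have hle : m₀ + r ^ 2 ≤ X ^ 2 := by
    have h8 : B * X + X ≤ X * X := by
      have := Nat.mul_le_mul_right X hXB
      linarith
    rw [sq X]
    omega
  refine hr₀ r (by omega) V W₁ hIsW ⟨A, m₀, hA1, hA2, fun i n hn => ?_, fun n hn => ?_⟩
  · refine (hA3 i n (hn.trans hle)).trans ?_
    rw [pow_mul]
    exact pow_le_pow_left₀ (by positivity) (by exact_mod_cast hXle) _
  · refine hA4 n (lt_of_le_of_lt (hn.trans hle) ?_)
    exact Nat.pow_lt_pow_right (by omega) (by norm_num)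

end Pool.Agent.H549.EG
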